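import Pool.Agent.Helper31.RC.Bes
import Pool.Agent.Helper49.LT.Base

/-!
# Bessel functions of integer order: Taylor enclosures and Fourier coefficients

`(-1)^M (J_n(y) - S_{n,M}(y)) ≥ 0` for `y ≥ 0`, `M ≥ 1`, where
`S_{n,M}(y) = ∑_{m<M} (-1)^m (y/2)^(2m+n)/(m! (m+n)!)`; the Fourier coefficients of `ee (y sin (N t + ph))`.
-/

open MeasureTheory Set Filter

namespace Helper31.Bes

open Helper49.LT

/-- the partial sums of the power series of `J_n` -/
noncomputable def S (n M : ℕ) (y : ℝ) : ℝ :=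
  ∑ m ∈ Finset.range M, (-1 : ℝ) ^ m * (y / 2) ^ (2 * m + n) / ((m.factorial : ℝ) * ((m + n).factorial : ℝ))

theorem hasDerivAt_half_pow (p : ℕ) (y : ℝ) :
    HasDerivAt (fun y : ℝ => (y / 2) ^ (p + 1)) (((p : ℝ) + 1) * (y / 2) ^ p / 2) y := by
  have h := ((hasDerivAt_id y).div_const 2).pow (p + 1)
  refine h.congr_deriv ?_
  simp only [id, Nat.add_sub_cancel]
  push_cast
  ring

theorem hasDerivAt_pow_S (n M : ℕ) (y : ℝ) :
    HasDerivAt (fun y : ℝ => y ^ (n + 1) * S (n + 1) M y) (y ^ (n + 1) * S n M y) y := by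
  unfold S
  have he : (fun y : ℝ => y ^ (n + 1) * ∑ m ∈ Finset.range M,
      (-1 : ℝ) ^ m * (y / 2) ^ (2 * m + (n + 1)) / ((m.factorial : ℝ) * ((m + (n + 1)).factorial : ℝ)))
      = fun y : ℝ => ∑ m ∈ Finset.range M, ((-1 : ℝ) ^ m * 2 ^ (n + 1) /
        ((m.factorial : ℝ) * ((m + (n + 1)).factorial : ℝ))) * (y / 2) ^ (2 * m + 2 * n + 1 + 1) := by
    funext y
    rw [Finset.mul_sum]
    refine Finset.sum_congr rfl fun m _ => ?_
    have : y ^ (n + 1) = 2 ^ (n + 1) * (y / 2) ^ (n + 1) := by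
      rw [div_pow]; field_simp
    rw [this]
    ring
  rw [he, Finset.mul_sum]
  refine HasDerivAt.fun_sum fun m _ => ?_
  refine ((hasDerivAt_half_pow (2 * m + 2 * n + 1) y).const_mul _).congr_deriv ?_
  have : y ^ (n + 1) = 2 ^ (n + 1) * (y / 2) ^ (n + 1) := by
    rw [div_pow]; field_simp
  rw [this]
  have hf : ((m + (n + 1)).factorial : ℝ) = ((m : ℝ) + n + 1) * ((m + n).factorial : ℝ) := by
    have : m + (n + 1) = (m + n) + 1 := by ring
    rw [this, Nat.factorial_succ]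
    push_cast
    ring
  rw [hf]
  have h1 : ((m + n).factorial : ℝ) ≠ 0 := by positivity
  have h2 : (m.factorial : ℝ) ≠ 0 := by positivity
  have h3 : (m : ℝ) + n + 1 ≠ 0 := by positivity
  push_cast
  field_simp
  ring

theorem hasDerivAt_S_zero (M : ℕ) (y : ℝ) :
    HasDerivAt (fun y : ℝ => S 0 (M + 1) y) (-S 1 M y) y := by
  unfold S
  have he : (fun y : ℝ => ∑ m ∈ Finset.range (M + 1),
      (-1 : ℝ) ^ m * (y / 2) ^ (2 * m + 0) / ((m.factorial : ℝ) * ((m + 0).factorial : ℝ)))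
      = fun y : ℝ => (∑ m ∈ Finset.range M, ((-1 : ℝ) ^ (m + 1) /
        (((m + 1).factorial : ℝ) * ((m + 1).factorial : ℝ))) * (y / 2) ^ (2 * m + 1 + 1)) + 1 := by
    funext y
    rw [Finset.sum_range_succ']
    congr 1
    · refine Finset.sum_congr rfl fun m _ => ?_
      have : 2 * (m + 1) + 0 = 2 * m + 1 + 1 := by ring
      rw [this, Nat.add_zero]
      ring
    · simp
  rw [he, ← Finset.sum_neg_distrib]
  refine (HasDerivAt.fun_sum fun m _ => ?_).add_const 1
  refine ((hasDerivAt_half_pow (2 * m + 1) y).const_mul _).congr_deriv ?_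
  have hf : ((m + 1).factorial : ℝ) = ((m : ℝ) + 1) * (m.factorial : ℝ) := by
    rw [Nat.factorial_succ]; push_cast; ring
  rw [hf]
  have h2 : (m.factorial : ℝ) ≠ 0 := by positivity
  have h3 : (m : ℝ) + 1 ≠ 0 := by positivity
  push_cast
  rw [pow_succ]
  field_simp
  ring

theorem nonneg_of_deriv (f f' : ℝ → ℝ) (hf : ∀ x, HasDerivAt f (f' x) x) (h0 : f 0 = 0)
    (hf' : ∀ x, 0 ≤ x → 0 ≤ f' x) : ∀ y, 0 ≤ y → 0 ≤ f y := by
  have hm : MonotoneOn f (Set.Ici 0) := by
    apply monotoneOn_of_deriv_nonneg (convex_Ici 0)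
    · exact (continuous_iff_continuousAt.2 fun x => (hf x).continuousAt).continuousOn
    · exact fun x _ => (hf x).differentiableAt.differentiableWithinAt
    · intro x hx
      rw [interior_Ici] at hx
      rw [(hf x).deriv]
      exact hf' x (le_of_lt hx)
  intro y hy
  have := hm (Set.mem_Ici.2 le_rfl) (Set.mem_Ici.2 hy) hy
  rwa [h0] at this

theorem J_zero_zero : J 0 0 = 1 := by
  have hpi := Real.pi_ne_zero
  unfold J
  simp
  field_simp

theorem S_zero_at (M : ℕ) : S 0 (M + 1) 0 = 1 := by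
  unfold S
  rw [Finset.sum_range_succ', Finset.sum_eq_zero]
  · simp
  · intro m _
    have : 2 * (m + 1) + 0 = (2 * m + 1) + 1 := by ring
    rw [this, pow_succ]
    simp

/-- the step in the order -/
theorem step_order (s : ℝ) (n M : ℕ) (h : ∀ y, 0 ≤ y → 0 ≤ s * (J (n : ℤ) y - S n M y)) :
    ∀ y, 0 ≤ y → 0 ≤ s * (J ((n + 1 : ℕ) : ℤ) y - S (n + 1) M y) := by
  have hm : ∀ y, 0 ≤ y → 0 ≤ s * (y ^ (n + 1) * J ((n + 1 : ℕ) : ℤ) y - y ^ (n + 1) * S (n + 1) M y) := by
    apply nonneg_of_deriv _ (fun y => s * (y ^ (n + 1) * J (n : ℤ) y - y ^ (n + 1) * S n M y))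
    · intro x
      exact ((hasDerivAt_pow_J n x).sub (hasDerivAt_pow_S n M x)).const_mul s
    · simp
    · intro x hx
      have : s * (x ^ (n + 1) * J (n : ℤ) x - x ^ (n + 1) * S n M x)
          = x ^ (n + 1) * (s * (J (n : ℤ) x - S n M x)) := by ring
      rw [this]
      exact mul_nonneg (pow_nonneg hx _) (h x hx)
  intro y hy
  rcases eq_or_lt_of_le hy with h0 | hpos
  · subst h0
    have hJ : J ((n + 1 : ℕ) : ℤ) 0 = 0 := by
      have := J1_nat (n + 1) 0
      simp at this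
      exact this
    have hS : S (n + 1) M 0 = 0 := by
      unfold S
      apply Finset.sum_eq_zero
      intro m _
      have : 2 * m + (n + 1) = (2 * m + n) + 1 := by ring
      rw [this, pow_succ]
      simp
    rw [hJ, hS]
    simp
  · have h1 := hm y hy
    have : s * (y ^ (n + 1) * J ((n + 1 : ℕ) : ℤ) y - y ^ (n + 1) * S (n + 1) M y)
        = y ^ (n + 1) * (s * (J ((n + 1 : ℕ) : ℤ) y - S (n + 1) M y)) := by ring
    rw [this] at h1
    exact nonneg_of_mul_nonneg_right h1 (pow_pos hpos _)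

/-- the step from `J_1` to `J_0` -/
theorem step_zero (s : ℝ) (M : ℕ) (h : ∀ y, 0 ≤ y → 0 ≤ s * (J 1 y - S 1 M y)) :
    ∀ y, 0 ≤ y → 0 ≤ (-s) * (J 0 y - S 0 (M + 1) y) := by
  apply nonneg_of_deriv _ (fun y => (-s) * ((J (0 - 1) y - J (0 + 1) y) / 2 - (-S 1 M y)))
  · intro x
    exact ((hasDerivAt_J 0 x).sub (hasDerivAt_S_zero M x)).const_mul (-s)
  · rw [J_zero_zero, S_zero_at]; simp
  · intro x hx
    have e : J (0 - 1) x = -J 1 x := by
      have := J_neg_ord 1 x
      simpa using this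
    rw [e]
    have := h x hx
    have e2 : (0 : ℤ) + 1 = 1 := by norm_num
    rw [e2]
    nlinarith

/-- TAYLOR ENCLOSURE of all orders: the partial sums bound `J_n` alternately from above (`M` odd) and from
below (`M ≥ 2` even), for all `y ≥ 0` -/
theorem taylor (M : ℕ) : ∀ n : ℕ, ∀ y : ℝ, 0 ≤ y →
    0 ≤ (-1 : ℝ) ^ (M + 1) * (J (n : ℤ) y - S n (M + 1) y) := by
  induction M with
  | zero =>
    intro n y hy
    have h := J1_nat n y
    rw [abs_of_nonneg hy] at h
    have h2 := (le_abs_self _).trans h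
    have : S n (0 + 1) y = (y / 2) ^ n / (n.factorial : ℝ) := by
      unfold S
      simp
    rw [this]
    simp only [zero_add, pow_one]
    linarith
  | succ M ih =>
    have h0 : ∀ y : ℝ, 0 ≤ y → 0 ≤ (-1 : ℝ) ^ (M + 1 + 1) * (J ((0 : ℕ) : ℤ) y - S 0 (M + 1 + 1) y) := by
      intro y hy
      have := step_zero ((-1 : ℝ) ^ (M + 1)) (M + 1) (fun y hy => by simpa using ih 1 y hy) y hy
      rw [pow_succ]
      simpa using this
    intro n
    induction n with
    | zero => exact h0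
    | succ n ihn => exact step_order _ n (M + 1 + 1) ihn

theorem J_le_S (n M : ℕ) (hM : Odd M) (y : ℝ) (hy : 0 ≤ y) : J (n : ℤ) y ≤ S n M y := by
  obtain ⟨r, hr⟩ := hM
  have := taylor (2 * r) n y hy
  rw [← hr, (show Odd M from ⟨r, hr⟩).neg_one_pow] at this
  linarith

theorem S_le_J (n M : ℕ) (hM : Even M) (h2 : 2 ≤ M) (y : ℝ) (hy : 0 ≤ y) : S n M y ≤ J (n : ℤ) y := by
  obtain ⟨r, hr⟩ : ∃ r, M = r + 1 := ⟨M - 1, by omega⟩
  have := taylor r n y hy
  rw [← hr, hM.neg_one_pow] at this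
  linarith

/-- `1 - y²/4 ≤ J_0(y) ≤ 1 - y²/4 + y⁴/64` -/
theorem J0_bd (y : ℝ) (hy : 0 ≤ y) : 1 - y ^ 2 / 4 ≤ J 0 y ∧ J 0 y ≤ 1 - y ^ 2 / 4 + y ^ 4 / 64 := by
  constructor
  · have := S_le_J 0 2 (by decide) le_rfl y hy
    simp [S, Finset.sum_range_succ, Nat.factorial] at this
    nlinarith
  · have := J_le_S 0 3 (by decide) y hy
    simp [S, Finset.sum_range_succ, Nat.factorial] at this
    nlinarith

/-- `y/2 - y³/16 ≤ J_1(y) ≤ y/2 - y³/16 + y⁵/384` -/
theorem J1_bd (y : ℝ) (hy : 0 ≤ y) :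
    y / 2 - y ^ 3 / 16 ≤ J 1 y ∧ J 1 y ≤ y / 2 - y ^ 3 / 16 + y ^ 5 / 384 := by
  constructor
  · have := S_le_J 1 2 (by decide) le_rfl y hy
    simp [S, Finset.sum_range_succ, Nat.factorial] at this
    nlinarith
  · have := J_le_S 1 3 (by decide) y hy
    simp [S, Finset.sum_range_succ, Nat.factorial] at this
    nlinarith

/-- `y²/8 - y⁴/96 ≤ J_2(y) ≤ y²/8 - y⁴/96 + y⁶/3072` -/
theorem J2_bd (y : ℝ) (hy : 0 ≤ y) :
    y ^ 2 / 8 - y ^ 4 / 96 ≤ J 2 y ∧ J 2 y ≤ y ^ 2 / 8 - y ^ 4 / 96 + y ^ 6 / 3072 := by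
  constructor
  · have := S_le_J 2 2 (by decide) le_rfl y hy
    simp [S, Finset.sum_range_succ, Nat.factorial] at this
    nlinarith
  · have := J_le_S 2 3 (by decide) y hy
    simp [S, Finset.sum_range_succ, Nat.factorial] at this
    nlinarith

theorem S_two (j : ℕ) (y : ℝ) :
    S j 2 y = (y / 2) ^ j / (j.factorial : ℝ) * (1 - y ^ 2 / (4 * ((j : ℝ) + 1))) := by
  have hf : ((1 + j).factorial : ℝ) = ((j : ℝ) + 1) * (j.factorial : ℝ) := by
    rw [Nat.add_comm, Nat.factorial_succ]; push_cast; ring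
  unfold S
  rw [Finset.sum_range_succ, Finset.sum_range_one, hf]
  have h2 : (j.factorial : ℝ) ≠ 0 := by positivity
  have h3 : (j : ℝ) + 1 ≠ 0 := by positivity
  have hp : (y / 2) ^ (2 * 1 + j) = (y / 2) ^ j * (y / 2) ^ 2 := by rw [← pow_add]; congr 1; ring
  rw [hp]
  simp only [mul_zero, zero_add, pow_zero, Nat.factorial_zero, Nat.factorial_one, Nat.cast_one,
    one_mul, pow_one]
  field_simp
  ring

theorem S_three (j : ℕ) (y : ℝ) :
    S j 3 y = (y / 2) ^ j / (j.factorial : ℝ) *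
      (1 - y ^ 2 / (4 * ((j : ℝ) + 1)) + y ^ 4 / (32 * ((j : ℝ) + 1) * ((j : ℝ) + 2))) := by
  have h := S_two j y
  have hs : S j 3 y = S j 2 y + (-1 : ℝ) ^ 2 * (y / 2) ^ (2 * 2 + j) /
      (((2 : ℕ).factorial : ℝ) * ((2 + j).factorial : ℝ)) := by
    unfold S
    rw [Finset.sum_range_succ]
  have hf : ((2 + j).factorial : ℝ) = ((j : ℝ) + 2) * (((j : ℝ) + 1) * (j.factorial : ℝ)) := by
    have : 2 + j = (j + 1) + 1 := by ring
    rw [this, Nat.factorial_succ, Nat.factorial_succ]; push_cast; ring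
  have h2 : (j.factorial : ℝ) ≠ 0 := by positivity
  have h3 : (j : ℝ) + 1 ≠ 0 := by positivity
  have h4 : (j : ℝ) + 2 ≠ 0 := by positivity
  have hp : (y / 2) ^ (2 * 2 + j) = (y / 2) ^ j * (y / 2) ^ 4 := by rw [← pow_add]; congr 1; ring
  rw [hs, h, hf, hp, show ((2 : ℕ).factorial : ℝ) = 2 by norm_num]
  field_simp
  ring

/-- (J3) two sided bound for all `j ≥ 0`, `y ≥ 0` -/
theorem J3 (j : ℕ) (y : ℝ) (hy : 0 ≤ y) :
    (y / 2) ^ j / (j.factorial : ℝ) * (1 - y ^ 2 / (4 * ((j : ℝ) + 1))) ≤ J (j : ℤ) y ∧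
    J (j : ℤ) y ≤ (y / 2) ^ j / (j.factorial : ℝ) *
      (1 - y ^ 2 / (4 * ((j : ℝ) + 1)) + y ^ 4 / (32 * ((j : ℝ) + 1) * ((j : ℝ) + 2))) := by
  constructor
  · rw [← S_two]
    exact S_le_J j 2 (by decide) le_rfl y hy
  · rw [← S_three]
    exact J_le_S j 3 (by decide) y hy

theorem continuous_ee' : Continuous ee := by
  unfold ee
  fun_prop

/-- the Fourier coefficients of `ee (y sin t)` -/
theorem int_ee_sin (k : ℤ) (y : ℝ) :
    (1 / (2 * Real.pi) : ℂ) * ∫ t in (0 : ℝ)..(2 * Real.pi), ee (y * Real.sin t - k * t) = (J k y : ℂ) := by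
  have hc : ∫ t in (0 : ℝ)..(2 * Real.pi), ee (y * Real.sin t - k * t)
      = ((∫ t in (0 : ℝ)..(2 * Real.pi), Real.cos (k * t - y * Real.sin t) : ℝ) : ℂ)
        - Complex.I * ((∫ t in (0 : ℝ)..(2 * Real.pi), Real.sin (k * t - y * Real.sin t) : ℝ) : ℂ) := by
    rw [← intervalIntegral.integral_ofReal, ← intervalIntegral.integral_ofReal,
      ← intervalIntegral.integral_const_mul, ← intervalIntegral.integral_sub]
    · apply intervalIntegral.integral_congr
      intro t _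
      show ee (y * Real.sin t - k * t) = ((Real.cos (k * t - y * Real.sin t) : ℝ) : ℂ)
        - Complex.I * ((Real.sin (k * t - y * Real.sin t) : ℝ) : ℂ)
      have : y * Real.sin t - k * t = -(k * t - y * Real.sin t) := by ring
      rw [this, ee_eq, Real.cos_neg, Real.sin_neg]
      push_cast
      ring
    · apply Continuous.intervalIntegrable; fun_prop
    · apply Continuous.intervalIntegrable; fun_prop
  have hs : ∫ t in (0 : ℝ)..(2 * Real.pi), Real.sin (k * t - y * Real.sin t) = 0 := by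
    have h1 : ∫ t in (0 : ℝ)..(2 * Real.pi), Real.sin (k * t - y * Real.sin t)
        = ∫ t in (0 : ℝ)..(2 * Real.pi),
          Real.sin (k * (2 * Real.pi - t) - y * Real.sin (2 * Real.pi - t)) := by
      rw [intervalIntegral.integral_comp_sub_left
        (fun x : ℝ => Real.sin (k * x - y * Real.sin x)) (2 * Real.pi)]
      simp
    have h2 : ∀ t : ℝ, Real.sin (k * (2 * Real.pi - t) - y * Real.sin (2 * Real.pi - t))
        = -Real.sin (k * t - y * Real.sin t) := by
      intro t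
      have e1 : Real.sin (2 * Real.pi - t) = -Real.sin t := by
        rw [Real.sin_two_pi_sub]
      rw [e1]
      have e2 : (k : ℝ) * (2 * Real.pi - t) - y * -Real.sin t
          = -(k * t - y * Real.sin t) + k * (2 * Real.pi) := by ring
      rw [e2, Real.sin_add_int_mul_two_pi, Real.sin_neg]
    simp_rw [h2] at h1
    rw [intervalIntegral.integral_neg] at h1
    linarith
  rw [hc, hs]
  unfold J
  push_cast
  ring

theorem per_ee_sin (n : ℤ) (N : ℕ) (y ph : ℝ) :
    Function.Periodic (fun t : ℝ => ee (y * Real.sin (N * t + ph) - n * t)) (2 * Real.pi) := by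
  intro t
  show ee (y * Real.sin (N * (t + 2 * Real.pi) + ph) - n * (t + 2 * Real.pi))
    = ee (y * Real.sin (N * t + ph) - n * t)
  have e1 : Real.sin ((N : ℝ) * (t + 2 * Real.pi) + ph) = Real.sin (N * t + ph) := by
    have : (N : ℝ) * (t + 2 * Real.pi) + ph = (N * t + ph) + N * (2 * Real.pi) := by ring
    rw [this, Real.sin_add_nat_mul_two_pi]
  rw [e1]
  have e2 : ee (y * Real.sin (N * t + ph) - n * (t + 2 * Real.pi))
      = ee (y * Real.sin (N * t + ph)) * ee (((-n : ℤ) : ℝ) * (t + 2 * Real.pi)) := by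
    rw [← ee_add]; congr 1; push_cast; ring
  have e3 : ee (y * Real.sin (N * t + ph) - n * t)
      = ee (y * Real.sin (N * t + ph)) * ee (((-n : ℤ) : ℝ) * t) := by
    rw [← ee_add]; congr 1; push_cast; ring
  rw [e2, e3, ee_int]

/-- the Fourier coefficients of `ee (y sin (N t + ph))` of order `n`, `N ∤ n`, vanish -/
theorem int_ee_sin_zero (N : ℕ) (hN : 1 ≤ N) (n : ℤ) (hn : ¬ (N : ℤ) ∣ n) (y ph : ℝ) :
    ∫ t in (0 : ℝ)..(2 * Real.pi), ee (y * Real.sin (N * t + ph) - n * t) = 0 := by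
  have hNr : (N : ℝ) ≠ 0 := by positivity
  set f : ℝ → ℂ := fun t => ee (y * Real.sin (N * t + ph) - n * t) with hf
  have hper := per_ee_sin n N y ph
  have h1 : ∫ t in (0 : ℝ)..(2 * Real.pi), f (t + 2 * Real.pi / N) = ∫ t in (0 : ℝ)..(2 * Real.pi), f t := by
    rw [intervalIntegral.integral_comp_add_right]
    have := hper.intervalIntegral_add_eq 0 (2 * Real.pi / N)
    rw [zero_add] at this
    rw [zero_add, add_comm (2 * Real.pi) (2 * Real.pi / N)]
    exact this.symm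
  have h2 : ∀ t : ℝ, f (t + 2 * Real.pi / N) = ee (-(n * (2 * Real.pi / N))) * f t := by
    intro t
    simp only [hf]
    have e1 : Real.sin ((N : ℝ) * (t + 2 * Real.pi / N) + ph) = Real.sin (N * t + ph) := by
      have : (N : ℝ) * (t + 2 * Real.pi / N) + ph = (N * t + ph) + 2 * Real.pi := by
        field_simp
        ring
      rw [this, Real.sin_add_two_pi]
    rw [e1, ← ee_add]
    congr 1
    ring
  simp_rw [h2] at h1
  rw [intervalIntegral.integral_const_mul] at h1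
  have h3 : ee (-(n * (2 * Real.pi / N))) ≠ 1 := by
    intro h
    have h4 : Real.cos (n * (2 * Real.pi / N)) = 1 := by
      have := congrArg Complex.re h
      rw [ee_re, Real.cos_neg] at this
      simpa using this
    rw [Real.cos_eq_one_iff] at h4
    obtain ⟨m, hm⟩ := h4
    apply hn
    refine ⟨m, ?_⟩
    have hpi := Real.pi_pos
    have : (n : ℝ) = N * m := by
      field_simp at hm
      nlinarith
    exact_mod_cast this
  have h5 : (ee (-(n * (2 * Real.pi / N))) - 1) * ∫ t in (0 : ℝ)..(2 * Real.pi), f t = 0 := by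
    rw [sub_mul, one_mul, h1, sub_self]
  exact (mul_eq_zero.1 h5).resolve_left (sub_ne_zero.2 h3)

/-- the Fourier coefficient of `ee (y sin (N t + ph))` of order `N m` is `ee (m ph) J_m(y)` -/
theorem int_ee_sin_mul (N : ℕ) (hN : 1 ≤ N) (m : ℤ) (y ph : ℝ) :
    (1 / (2 * Real.pi) : ℂ) * ∫ t in (0 : ℝ)..(2 * Real.pi),
      ee (y * Real.sin (N * t + ph) - ((N : ℝ) * m) * t) = ee (m * ph) * (J m y : ℂ) := by
  have hNr : (N : ℝ) ≠ 0 := by positivity
  rw [← int_ee_sin m y]
  set g : ℝ → ℂ := fun t => ee (y * Real.sin t - m * t) with hg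
  have hper : Function.Periodic g (2 * Real.pi) := by
    have := per_ee_sin m 1 y 0
    simpa [hg] using this
  have h1 : ∀ t : ℝ, ee (y * Real.sin (N * t + ph) - ((N : ℝ) * m) * t) = ee (m * ph) * g (N * t + ph) := by
    intro t
    simp only [hg]
    rw [← ee_add]
    congr 1
    ring
  simp_rw [h1]
  rw [intervalIntegral.integral_const_mul, intervalIntegral.integral_comp_mul_add g hNr]
  have h2 : ∫ x in (N : ℝ) * 0 + ph..(N : ℝ) * (2 * Real.pi) + ph, g x
      = (N : ℝ) * ∫ x in (0 : ℝ)..(2 * Real.pi), g x := by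
    have h3 := hper.intervalIntegral_add_zsmul_eq (N : ℤ) ph
      (fun a b => (Continuous.intervalIntegrable (by
        simp only [hg]
        exact continuous_ee'.comp (by fun_prop)) a b))
    have h4 := hper.intervalIntegral_add_eq ph 0
    rw [zero_add] at h4
    rw [h4] at h3
    have e1 : (N : ℝ) * 0 + ph = ph := by ring
    have e2 : (N : ℝ) * (2 * Real.pi) + ph = ph + (N : ℤ) • (2 * Real.pi) := by
      simp
      ring
    rw [e1, e2, h3]
    simp
  rw [h2]
  rw [Complex.real_smul]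
  push_cast
  have : (N : ℂ) ≠ 0 := by exact_mod_cast hNr
  field_simp

end Helper31.Bes
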