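import Mathlib

/-!
# Bessel functions of integer order: elementary bounds (track B of project RC)

`J k y = (1/2π) ∫₀^{2π} cos (k t - y sin t) dt`. Symmetries, recurrence, derivative, Bessel's inequality,
`|J k y| ≤ (|y|/2)^k/k!` and the Parseval bounds.
-/

open MeasureTheory Set Filter

namespace Helper31.Bes

/-- the Bessel function of integer order `k` -/
noncomputable def J (k : ℤ) (y : ℝ) : ℝ :=
  (1 / (2 * Real.pi)) * ∫ t in (0 : ℝ)..(2 * Real.pi), Real.cos (k * t - y * Real.sin t)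

theorem cont_int (k : ℤ) (y : ℝ) :
    Continuous (fun t : ℝ => Real.cos (k * t - y * Real.sin t)) := by fun_prop

theorem per_int (k : ℤ) (y : ℝ) :
    Function.Periodic (fun t : ℝ => Real.cos (k * t - y * Real.sin t)) (2 * Real.pi) := by
  intro t
  have h1 : Real.sin (t + 2 * Real.pi) = Real.sin t := Real.sin_add_two_pi t
  have h2 : (k : ℝ) * (t + 2 * Real.pi) - y * Real.sin (t + 2 * Real.pi)
      = (k * t - y * Real.sin t) + k * (2 * Real.pi) := by rw [h1]; ring
  show Real.cos ((k : ℝ) * (t + 2 * Real.pi) - y * Real.sin (t + 2 * Real.pi)) = _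
  rw [h2]
  exact Real.cos_add_int_mul_two_pi _ k

theorem J_neg_arg (k : ℤ) (y : ℝ) : J k (-y) = J (-k) y := by
  unfold J
  congr 1
  apply intervalIntegral.integral_congr
  intro t _
  show Real.cos ((k : ℝ) * t - -y * Real.sin t) = Real.cos (((-k : ℤ) : ℝ) * t - y * Real.sin t)
  rw [← Real.cos_neg]
  congr 1
  push_cast
  ring

theorem J_neg_ord (k : ℤ) (y : ℝ) : J (-k) y = (-1 : ℝ) ^ k * J k y := by
  unfold J
  have h1 : ∫ t in (0 : ℝ)..(2 * Real.pi), Real.cos (((-k : ℤ) : ℝ) * t - y * Real.sin t)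
      = ∫ t in (0 : ℝ)..(2 * Real.pi),
        Real.cos (((-k : ℤ) : ℝ) * (Real.pi - t) - y * Real.sin (Real.pi - t)) := by
    rw [intervalIntegral.integral_comp_sub_left
      (fun x : ℝ => Real.cos (((-k : ℤ) : ℝ) * x - y * Real.sin x)) Real.pi]
    have hp := (per_int (-k) y).intervalIntegral_add_eq 0 (Real.pi - 2 * Real.pi)
    rw [zero_add] at hp
    rw [hp]
    congr 1
    ring
  rw [h1]
  have h2 : ∀ t : ℝ, Real.cos (((-k : ℤ) : ℝ) * (Real.pi - t) - y * Real.sin (Real.pi - t))
      = (-1 : ℝ) ^ k * Real.cos (k * t - y * Real.sin t) := by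
    intro t
    rw [Real.sin_pi_sub]
    have : ((-k : ℤ) : ℝ) * (Real.pi - t) - y * Real.sin t
        = (k * t - y * Real.sin t) - k * Real.pi := by push_cast; ring
    rw [this, Real.cos_sub_int_mul_pi]
  simp_rw [h2]
  rw [intervalIntegral.integral_const_mul]
  ring

theorem J_neg_sq (k : ℤ) (y : ℝ) : J (-k) y ^ 2 = J k y ^ 2 := by
  rw [J_neg_ord, mul_pow]
  have : ((-1 : ℝ) ^ k) ^ 2 = 1 := by
    rcases Int.even_or_odd k with h | h
    · rw [h.neg_one_zpow]; norm_num
    · rw [h.neg_one_zpow]; norm_num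
  rw [this, one_mul]

theorem abs_J_neg (k : ℤ) (y : ℝ) : |J (-k) y| = |J k y| := by
  have h := J_neg_sq k y
  exact (sq_eq_sq_iff_abs_eq_abs _ _).1 h

theorem abs_J_neg_arg (k : ℤ) (y : ℝ) : |J k (-y)| = |J k y| := by
  rw [J_neg_arg, abs_J_neg]

/-- the recurrence `2 k J_k = y (J_{k-1} + J_{k+1})` -/
theorem J_rec (k : ℤ) (y : ℝ) : 2 * (k : ℝ) * J k y = y * (J (k - 1) y + J (k + 1) y) := by
  have hd : ∀ t ∈ Set.uIcc (0 : ℝ) (2 * Real.pi),
      HasDerivAt (fun t : ℝ => Real.sin (k * t - y * Real.sin t))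
        (Real.cos (k * t - y * Real.sin t) * ((k : ℝ) * 1 - y * Real.cos t)) t := by
    intro t _
    exact (((hasDerivAt_id t).const_mul (k : ℝ)).sub ((Real.hasDerivAt_sin t).const_mul y)).sin
  have hc : IntervalIntegrable
      (fun t : ℝ => Real.cos (k * t - y * Real.sin t) * ((k : ℝ) * 1 - y * Real.cos t))
      volume 0 (2 * Real.pi) := by
    apply Continuous.intervalIntegrable; fun_prop
  have h0 := intervalIntegral.integral_eq_sub_of_hasDerivAt hd hc
  have h1 : Real.sin ((k : ℝ) * (2 * Real.pi) - y * Real.sin (2 * Real.pi))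
      - Real.sin ((k : ℝ) * 0 - y * Real.sin 0) = 0 := by
    have : Real.sin ((k : ℝ) * (2 * Real.pi)) = 0 := by
      have := Real.sin_int_mul_pi (2 * k)
      push_cast at this
      rw [← this]; congr 1; ring
    simp [this]
  rw [h1] at h0
  have h2 : ∀ t : ℝ, Real.cos (k * t - y * Real.sin t) * ((k : ℝ) * 1 - y * Real.cos t)
      = (k : ℝ) * Real.cos (k * t - y * Real.sin t)
        - (y / 2) * (Real.cos (((k - 1 : ℤ) : ℝ) * t - y * Real.sin t)
          + Real.cos (((k + 1 : ℤ) : ℝ) * t - y * Real.sin t)) := by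
    intro t
    have e1 : ((k - 1 : ℤ) : ℝ) * t - y * Real.sin t = (k * t - y * Real.sin t) - t := by
      push_cast; ring
    have e2 : ((k + 1 : ℤ) : ℝ) * t - y * Real.sin t = (k * t - y * Real.sin t) + t := by
      push_cast; ring
    rw [e1, e2, Real.cos_sub (k * t - y * Real.sin t) t, Real.cos_add (k * t - y * Real.sin t) t]
    ring
  simp_rw [h2] at h0
  rw [intervalIntegral.integral_sub, intervalIntegral.integral_const_mul,
    intervalIntegral.integral_const_mul, intervalIntegral.integral_add] at h0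
  · unfold J
    linear_combination (2 * (1 / (2 * Real.pi))) * h0
  · exact (cont_int (k - 1) y).intervalIntegrable _ _
  · exact (cont_int (k + 1) y).intervalIntegrable _ _
  · apply Continuous.intervalIntegrable; fun_prop
  · apply Continuous.intervalIntegrable; fun_prop

/-- the derivative `J_k' = (J_{k-1} - J_{k+1})/2` -/
theorem hasDerivAt_J (k : ℤ) (y : ℝ) :
    HasDerivAt (fun y : ℝ => J k y) ((J (k - 1) y - J (k + 1) y) / 2) y := by
  have key := (intervalIntegral.hasDerivAt_integral_of_dominated_loc_of_deriv_le (μ := volume)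
    (a := 0) (b := 2 * Real.pi) (𝕜 := ℝ)
    (F := fun y t => Real.cos (k * t - y * Real.sin t))
    (F' := fun y t => Real.sin (k * t - y * Real.sin t) * Real.sin t)
    (x₀ := y) (s := Set.univ) (bound := fun _ => 1) Filter.univ_mem
    (Filter.Eventually.of_forall fun x => (cont_int k x).aestronglyMeasurable)
    ((cont_int k y).intervalIntegrable _ _)
    (by
      apply Continuous.aestronglyMeasurable; fun_prop)
    (by
      refine Filter.Eventually.of_forall fun t _ x _ => ?_
      rw [Real.norm_eq_abs, abs_mul]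
      exact mul_le_one₀ (Real.abs_sin_le_one _) (abs_nonneg _) (Real.abs_sin_le_one _))
    (by
      exact intervalIntegrable_const)
    (by
      refine Filter.Eventually.of_forall fun t _ x _ => ?_
      have h := ((((hasDerivAt_id x).mul_const (Real.sin t)).const_sub ((k : ℝ) * t))).cos
      refine h.congr_deriv ?_
      simp only [id]
      ring)).2
  have h2 := key.const_mul (1 / (2 * Real.pi))
  refine h2.congr_deriv ?_
  have h3 : ∀ t : ℝ, Real.sin (k * t - y * Real.sin t) * Real.sin t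
      = (1 / 2) * (Real.cos (((k - 1 : ℤ) : ℝ) * t - y * Real.sin t)
          - Real.cos (((k + 1 : ℤ) : ℝ) * t - y * Real.sin t)) := by
    intro t
    have e1 : ((k - 1 : ℤ) : ℝ) * t - y * Real.sin t = (k * t - y * Real.sin t) - t := by
      push_cast; ring
    have e2 : ((k + 1 : ℤ) : ℝ) * t - y * Real.sin t = (k * t - y * Real.sin t) + t := by
      push_cast; ring
    rw [e1, e2, Real.cos_sub (k * t - y * Real.sin t) t, Real.cos_add (k * t - y * Real.sin t) t]
    ring
  simp_rw [h3]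
  rw [intervalIntegral.integral_const_mul, intervalIntegral.integral_sub]
  · unfold J; ring
  · exact (cont_int (k - 1) y).intervalIntegrable _ _
  · exact (cont_int (k + 1) y).intervalIntegrable _ _

theorem continuous_J (k : ℤ) : Continuous (fun y : ℝ => J k y) :=
  continuous_iff_continuousAt.2 fun y => (hasDerivAt_J k y).continuousAt

/-- `∫₀^{2π} cos (n t) dt = 0` for an integer `n ≠ 0` -/
theorem int_cos_zero (n : ℤ) (hn : n ≠ 0) :
    ∫ t in (0 : ℝ)..(2 * Real.pi), Real.cos ((n : ℝ) * t) = 0 := by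
  have hn' : (n : ℝ) ≠ 0 := by exact_mod_cast hn
  rw [intervalIntegral.integral_comp_mul_left (fun x => Real.cos x) hn', integral_cos]
  have : Real.sin ((n : ℝ) * (2 * Real.pi)) = 0 := by
    have := Real.sin_int_mul_pi (2 * n)
    push_cast at this
    rw [← this]; congr 1; ring
  simp [this]

/-- Bessel's inequality -/
theorem bessel (S : Finset ℤ) (y : ℝ) : ∑ k ∈ S, J k y ^ 2 ≤ 1 := by
  have hpi := Real.pi_pos
  set c : ℤ → ℝ := fun k => J k y
  have hpt : ∀ t : ℝ, 0 ≤ 1 - 2 * ∑ k ∈ S, c k * Real.cos (k * t - y * Real.sin t)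
      + ∑ k ∈ S, ∑ l ∈ S, c k * c l * Real.cos (((k - l : ℤ) : ℝ) * t) := by
    intro t
    have e1 : ∑ k ∈ S, c k * Real.cos (k * t - y * Real.sin t)
        = Real.cos (y * Real.sin t) * (∑ k ∈ S, c k * Real.cos (k * t))
          + Real.sin (y * Real.sin t) * (∑ k ∈ S, c k * Real.sin (k * t)) := by
      rw [Finset.mul_sum, Finset.mul_sum, ← Finset.sum_add_distrib]
      refine Finset.sum_congr rfl fun k _ => ?_
      rw [Real.cos_sub]; ring
    have e2 : ∑ k ∈ S, ∑ l ∈ S, c k * c l * Real.cos (((k - l : ℤ) : ℝ) * t)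
        = (∑ k ∈ S, c k * Real.cos (k * t)) ^ 2 + (∑ k ∈ S, c k * Real.sin (k * t)) ^ 2 := by
      rw [sq, sq, Finset.sum_mul_sum, Finset.sum_mul_sum, ← Finset.sum_add_distrib]
      refine Finset.sum_congr rfl fun k _ => ?_
      rw [← Finset.sum_add_distrib]
      refine Finset.sum_congr rfl fun l _ => ?_
      have : ((k - l : ℤ) : ℝ) * t = k * t - l * t := by push_cast; ring
      rw [this, Real.cos_sub]; ring
    rw [e1, e2]
    have e3 := Real.sin_sq_add_cos_sq (y * Real.sin t)
    nlinarith [sq_nonneg (Real.cos (y * Real.sin t) - ∑ k ∈ S, c k * Real.cos (k * t)),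
      sq_nonneg (Real.sin (y * Real.sin t) - ∑ k ∈ S, c k * Real.sin (k * t))]
  have hint : 0 ≤ ∫ t in (0 : ℝ)..(2 * Real.pi),
      (1 - 2 * ∑ k ∈ S, c k * Real.cos (k * t - y * Real.sin t)
      + ∑ k ∈ S, ∑ l ∈ S, c k * c l * Real.cos (((k - l : ℤ) : ℝ) * t)) :=
    intervalIntegral.integral_nonneg (by positivity) fun t _ => hpt t
  have i1 : ∀ k : ℤ, ∫ t in (0 : ℝ)..(2 * Real.pi), Real.cos (k * t - y * Real.sin t)
      = 2 * Real.pi * c k := by
    intro k
    simp only [c, J]
    field_simp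
  rw [intervalIntegral.integral_add, intervalIntegral.integral_sub,
    intervalIntegral.integral_const_mul, intervalIntegral.integral_finsetSum,
    intervalIntegral.integral_finsetSum] at hint
  · have h1 : ∑ k ∈ S, ∫ t in (0 : ℝ)..(2 * Real.pi), c k * Real.cos (k * t - y * Real.sin t)
        = 2 * Real.pi * ∑ k ∈ S, c k ^ 2 := by
      rw [Finset.mul_sum]
      refine Finset.sum_congr rfl fun k _ => ?_
      rw [intervalIntegral.integral_const_mul, i1]; ring
    have h2 : ∑ k ∈ S, ∫ t in (0 : ℝ)..(2 * Real.pi),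
        ∑ l ∈ S, c k * c l * Real.cos (((k - l : ℤ) : ℝ) * t)
        = 2 * Real.pi * ∑ k ∈ S, c k ^ 2 := by
      rw [Finset.mul_sum]
      refine Finset.sum_congr rfl fun k hk => ?_
      rw [intervalIntegral.integral_finsetSum]
      · have : ∀ l ∈ S, ∫ t in (0 : ℝ)..(2 * Real.pi),
            c k * c l * Real.cos (((k - l : ℤ) : ℝ) * t)
            = if l = k then 2 * Real.pi * c k ^ 2 else 0 := by
          intro l _
          rw [intervalIntegral.integral_const_mul]
          split_ifs with h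
          · subst h
            simp
            ring
          · rw [int_cos_zero (k - l) (by intro h'; apply h; omega), mul_zero]
        rw [Finset.sum_congr rfl this, Finset.sum_ite_eq' S k]
        simp [hk]
      · intro l _
        apply Continuous.intervalIntegrable; fun_prop
    rw [h1, h2] at hint
    simp only [intervalIntegral.integral_const, smul_eq_mul, mul_one, sub_zero] at hint
    have h3 : 0 ≤ 2 * Real.pi * (1 - ∑ k ∈ S, c k ^ 2) := by nlinarith
    have h4 : 0 ≤ 1 - ∑ k ∈ S, c k ^ 2 := by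
      by_contra h
      push Not at h
      nlinarith
    linarith
  · intro k _
    apply Continuous.intervalIntegrable
    exact continuous_finsetSum _ fun l _ => by fun_prop
  · intro k _
    apply Continuous.intervalIntegrable; fun_prop
  · exact intervalIntegrable_const
  · apply Continuous.intervalIntegrable; fun_prop
  · apply Continuous.intervalIntegrable; fun_prop
  · apply Continuous.intervalIntegrable; fun_prop

theorem J_sq_le_one (k : ℤ) (y : ℝ) : J k y ^ 2 ≤ 1 := by
  have := bessel {k} y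
  simpa using this

theorem abs_J_le_one (k : ℤ) (y : ℝ) : |J k y| ≤ 1 := by
  have := J_sq_le_one k y
  exact abs_le_one_iff_mul_self_le_one.2 (by rw [← sq]; exact this)

/-- the derivative of `y^(n+1) J_{n+1}` is `y^(n+1) J_n` -/
theorem hasDerivAt_pow_J (n : ℕ) (y : ℝ) :
    HasDerivAt (fun y : ℝ => y ^ (n + 1) * J ((n + 1 : ℕ) : ℤ) y) (y ^ (n + 1) * J (n : ℤ) y) y := by
  have h := (hasDerivAt_pow (n + 1) y).mul (hasDerivAt_J ((n + 1 : ℕ) : ℤ) y)
  refine h.congr_deriv ?_
  have hr := J_rec ((n + 1 : ℕ) : ℤ) y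
  have e : (((n + 1 : ℕ) : ℤ) - 1) = (n : ℤ) := by push_cast; ring
  rw [e] at hr ⊢
  have hp : y ^ (n + 1) = y ^ n * y := pow_succ y n
  simp only [Nat.add_sub_cancel]
  push_cast at hr ⊢
  rw [hp]
  linear_combination (y ^ n / 2) * hr

/-- (J1) `|J_n(y)| ≤ (|y|/2)^n/n!` -/
theorem J1_nat (n : ℕ) : ∀ y : ℝ, |J (n : ℤ) y| ≤ (|y| / 2) ^ n / (n.factorial : ℝ) := by
  induction n with
  | zero => intro y; simpa using abs_J_le_one 0 y
  | succ n ih =>
    have main : ∀ y : ℝ, 0 ≤ y → |J ((n + 1 : ℕ) : ℤ) y| ≤ (y / 2) ^ (n + 1) / ((n + 1).factorial : ℝ) := by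
      intro y hy
      rcases eq_or_lt_of_le hy with h0 | hpos
      · subst h0
        have hr := J_rec ((n + 1 : ℕ) : ℤ) 0
        have hz : J ((n + 1 : ℕ) : ℤ) 0 = 0 := by
          have hne : (2 : ℝ) * (((n + 1 : ℕ) : ℤ) : ℝ) ≠ 0 := by push_cast; positivity
          have : 2 * (((n + 1 : ℕ) : ℤ) : ℝ) * J ((n + 1 : ℕ) : ℤ) 0 = 0 := by rw [hr]; ring
          exact (mul_eq_zero.1 this).resolve_left hne
        rw [hz]
        simp
      · have hd : ∀ s ∈ Set.uIcc (0 : ℝ) y,
            HasDerivAt (fun s : ℝ => s ^ (n + 1) * J ((n + 1 : ℕ) : ℤ) s) (s ^ (n + 1) * J (n : ℤ) s) s :=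
          fun s _ => hasDerivAt_pow_J n s
        have hcont : Continuous (fun s : ℝ => s ^ (n + 1) * J (n : ℤ) s) :=
          (continuous_pow (n + 1)).mul (continuous_J n)
        have hi := intervalIntegral.integral_eq_sub_of_hasDerivAt hd (hcont.intervalIntegrable _ _)
        have hz : (0 : ℝ) ^ (n + 1) = 0 := by simp
        rw [hz, zero_mul, sub_zero] at hi
        have hb : ‖∫ s in (0 : ℝ)..y, s ^ (n + 1) * J (n : ℤ) s‖
            ≤ |∫ s in (0 : ℝ)..y, s ^ (n + 1) * ((s / 2) ^ n / (n.factorial : ℝ))| := by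
          apply intervalIntegral.norm_integral_le_abs_of_norm_le
          · refine (ae_restrict_iff' measurableSet_uIoc).2 (Filter.Eventually.of_forall fun s hs => ?_)
            rw [Set.uIoc_of_le hy] at hs
            rw [Real.norm_eq_abs, abs_mul, abs_of_nonneg (pow_nonneg hs.1.le (n + 1))]
            have := ih s
            rw [abs_of_pos hs.1] at this
            exact mul_le_mul_of_nonneg_left this (pow_nonneg hs.1.le _)
          · apply Continuous.intervalIntegrable; fun_prop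
        have hc : ∫ s in (0 : ℝ)..y, s ^ (n + 1) * ((s / 2) ^ n / (n.factorial : ℝ))
            = y ^ (2 * n + 2) / (2 ^ n * (n.factorial : ℝ) * (2 * n + 2)) := by
          have : ∀ s : ℝ, s ^ (n + 1) * ((s / 2) ^ n / (n.factorial : ℝ))
              = (1 / (2 ^ n * (n.factorial : ℝ))) * s ^ (2 * n + 1) := by
            intro s
            rw [div_pow]
            field_simp
            ring
          simp_rw [this]
          rw [intervalIntegral.integral_const_mul, integral_pow]
          push_cast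
          field_simp
          ring
        rw [hi, hc] at hb
        rw [Real.norm_eq_abs, abs_mul, abs_of_pos (pow_pos hpos (n + 1))] at hb
        have hpn : 0 ≤ y ^ (2 * n + 2) / (2 ^ n * (n.factorial : ℝ) * (2 * n + 2)) := by positivity
        rw [abs_of_nonneg hpn] at hb
        have hfac : ((n + 1).factorial : ℝ) = (n + 1) * (n.factorial : ℝ) := by
          rw [Nat.factorial_succ]; push_cast; ring
        have hyp : 0 < y ^ (n + 1) := pow_pos hpos _
        have he : y ^ (n + 1) * ((y / 2) ^ (n + 1) / ((n + 1).factorial : ℝ))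
            = y ^ (2 * n + 2) / (2 ^ n * (n.factorial : ℝ) * (2 * n + 2)) := by
          rw [hfac, div_pow]
          field_simp
          ring
        rw [← he] at hb
        exact le_of_mul_le_mul_left hb hyp
    intro y
    rcases le_total 0 y with h | h
    · rw [abs_of_nonneg h]; exact main y h
    · rw [abs_of_nonpos h, ← abs_J_neg_arg]
      exact main (-y) (by linarith)

/-- (J1) for all orders -/
theorem J1 (k : ℤ) (y : ℝ) : |J k y| ≤ (|y| / 2) ^ k.natAbs / (k.natAbs.factorial : ℝ) := by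
  rcases Int.natAbs_eq k with h | h
  · have := J1_nat k.natAbs y
    rw [← h] at this
    exact this
  · have := J1_nat k.natAbs y
    rw [← abs_J_neg, ← h] at this
    exact this

/-- (J2) for `j ≥ 2`: `J_j(y)² (2 + 4 j²/y²) ≤ 1`, written without a division -/
theorem J2_mul (j : ℕ) (hj : 2 ≤ j) (y : ℝ) :
    J (j : ℤ) y ^ 2 * (2 * y ^ 2 + 4 * (j : ℝ) ^ 2) ≤ y ^ 2 := by
  have hb := bessel ({(j : ℤ), -(j : ℤ), (j : ℤ) - 1, -((j : ℤ) - 1), (j : ℤ) + 1, -((j : ℤ) + 1)} : Finset ℤ) y
  rw [Finset.sum_insert, Finset.sum_insert, Finset.sum_insert, Finset.sum_insert, Finset.sum_insert,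
    Finset.sum_singleton, J_neg_sq, J_neg_sq, J_neg_sq] at hb
  · have hr := J_rec (j : ℤ) y
    push_cast at hr
    have h1 : (2 * (j : ℝ) * J (j : ℤ) y) ^ 2 ≤ y ^ 2 * (2 * (J ((j : ℤ) - 1) y ^ 2 + J ((j : ℤ) + 1) y ^ 2)) := by
      rw [hr, mul_pow]
      apply mul_le_mul_of_nonneg_left _ (sq_nonneg y)
      nlinarith [sq_nonneg (J ((j : ℤ) - 1) y - J ((j : ℤ) + 1) y)]
    have h2 : 2 * (J ((j : ℤ) - 1) y ^ 2 + J ((j : ℤ) + 1) y ^ 2) ≤ 1 - 2 * J (j : ℤ) y ^ 2 := by linarith
    have h3 := mul_le_mul_of_nonneg_left h2 (sq_nonneg y)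
    nlinarith
  all_goals
    simp only [Finset.mem_insert, Finset.mem_singleton, not_or]
    omega

/-- (J2) for `j ≥ 2` -/
theorem J2 (j : ℕ) (hj : 2 ≤ j) (y : ℝ) (hy : y ≠ 0) :
    J (j : ℤ) y ^ 2 ≤ 1 / (2 + 4 * (j : ℝ) ^ 2 / y ^ 2) := by
  have h := J2_mul j hj y
  have hy2 : 0 < y ^ 2 := by positivity
  rw [le_div_iff₀ (by positivity)]
  have : J (j : ℤ) y ^ 2 * (2 + 4 * (j : ℝ) ^ 2 / y ^ 2)
      = (J (j : ℤ) y ^ 2 * (2 * y ^ 2 + 4 * (j : ℝ) ^ 2)) / y ^ 2 := by field_simp
  rw [this, div_le_one hy2]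
  exact h

/-- (J2) for `j = 1`, written without a division -/
theorem J2_one_mul (y : ℝ) : J 1 y ^ 2 * (6 * y ^ 2 + 8) ≤ 3 * y ^ 2 := by
  have hb := bessel ({(0 : ℤ), 1, -1, 2, -2} : Finset ℤ) y
  rw [Finset.sum_insert, Finset.sum_insert, Finset.sum_insert, Finset.sum_insert,
    Finset.sum_singleton, J_neg_sq, J_neg_sq] at hb
  · have hr := J_rec 1 y
    norm_num at hr
    have h1 : (2 * J 1 y) ^ 2 ≤ y ^ 2 * ((3 / 2) * (J 0 y ^ 2 + 2 * J 2 y ^ 2)) := by
      rw [hr, mul_pow]
      apply mul_le_mul_of_nonneg_left _ (sq_nonneg y)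
      nlinarith [sq_nonneg (J 0 y - 2 * J 2 y)]
    have h2 : (3 / 2) * (J 0 y ^ 2 + 2 * J 2 y ^ 2) ≤ (3 / 2) * (1 - 2 * J 1 y ^ 2) := by linarith
    have h3 := mul_le_mul_of_nonneg_left h2 (sq_nonneg y)
    nlinarith
  all_goals
    simp only [Finset.mem_insert, Finset.mem_singleton, not_or]
    omega

/-- (J2) for `j = 1` -/
theorem J2_one (y : ℝ) (hy : y ≠ 0) : J 1 y ^ 2 ≤ 1 / (2 + 8 / (3 * y ^ 2)) := by
  have h := J2_one_mul y
  have hy2 : 0 < y ^ 2 := by positivity
  rw [le_div_iff₀ (by positivity)]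
  have : J 1 y ^ 2 * (2 + 8 / (3 * y ^ 2)) = (J 1 y ^ 2 * (6 * y ^ 2 + 8)) / (3 * y ^ 2) := by
    field_simp
    ring
  rw [this, div_le_one (by positivity)]
  exact h

/-- `J_j(y)² ≤ 1/2` for `j ≥ 1` -/
theorem J_sq_le_half (j : ℕ) (hj : 1 ≤ j) (y : ℝ) : J (j : ℤ) y ^ 2 ≤ 1 / 2 := by
  have hb := bessel ({(j : ℤ), -(j : ℤ)} : Finset ℤ) y
  rw [Finset.sum_insert, Finset.sum_singleton, J_neg_sq] at hb
  · linarith
  · simp only [Finset.mem_singleton]
    omega

end Helper31.Bes
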