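import Pool.Agent.Helper31.RC.Bes2

/-!
# Bessel functions: monotonicity below the first maximum and global maxima

`J_n` is nonnegative and nondecreasing on `[0, Y]` as soon as `J_{n-1} ≥ J_{n+1}` there; the Sturm function
`J_n² + y²/(y² - n²) (J_n')²` is antitone on `(n, ∞)`.
-/

open MeasureTheory Set Filter

namespace Helper31.Bes

/-- the derivative of `J_n` -/
noncomputable def DJ (n : ℤ) (y : ℝ) : ℝ := (J (n - 1) y - J (n + 1) y) / 2

theorem hasDerivAt_J' (n : ℤ) (y : ℝ) : HasDerivAt (fun y : ℝ => J n y) (DJ n y) y := hasDerivAt_J n y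

/-- Bessel's equation -/
theorem hasDerivAt_DJ (n : ℤ) (y : ℝ) (hy : y ≠ 0) :
    HasDerivAt (fun y : ℝ => DJ n y) (((n : ℝ) ^ 2 / y ^ 2 - 1) * J n y - DJ n y / y) y := by
  have h := ((hasDerivAt_J (n - 1) y).sub (hasDerivAt_J (n + 1) y)).div_const 2
  refine h.congr_deriv ?_
  have r0 := J_rec n y
  have r1 := J_rec (n - 1) y
  have r2 := J_rec (n + 1) y
  have e1 : n - 1 + 1 = n := by ring
  have e2 : n + 1 - 1 = n := by ring
  rw [e1] at r1 ⊢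
  rw [e2] at r2 ⊢
  push_cast at r1 r2
  have a1 : J (n - 1 - 1) y = 2 * ((n : ℝ) - 1) * J (n - 1) y / y - J n y := by
    field_simp
    linarith
  have a2 : J (n + 1 + 1) y = 2 * ((n : ℝ) + 1) * J (n + 1) y / y - J n y := by
    field_simp
    linarith
  have a3 : J (n + 1) y = 2 * (n : ℝ) * J n y / y - J (n - 1) y := by
    field_simp
    linarith
  rw [a1, a2]
  unfold DJ
  rw [a3]
  field_simp
  ring

/-- the Sturm function -/
noncomputable def St (n : ℕ) (y : ℝ) : ℝ := J (n : ℤ) y ^ 2 + y ^ 2 / (y ^ 2 - (n : ℝ) ^ 2) * DJ (n : ℤ) y ^ 2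

theorem sturm (n : ℕ) : AntitoneOn (fun y : ℝ => St n y) (Set.Ioi (n : ℝ)) := by
  have hd : ∀ y : ℝ, (n : ℝ) < y → HasDerivAt (fun y : ℝ => St n y)
      (-(2 * y * (n : ℝ) ^ 2 / (y ^ 2 - (n : ℝ) ^ 2) ^ 2 + 2 * y / (y ^ 2 - (n : ℝ) ^ 2)) * DJ (n : ℤ) y ^ 2) y := by
    intro y hy
    have hn0 : (0 : ℝ) ≤ n := Nat.cast_nonneg n
    have hy0 : 0 < y := lt_of_le_of_lt hn0 hy
    have hq : y ^ 2 - (n : ℝ) ^ 2 ≠ 0 := by nlinarith
    have h1 := (hasDerivAt_J' (n : ℤ) y).fun_pow 2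
    have h2 := (hasDerivAt_DJ (n : ℤ) y hy0.ne').fun_pow 2
    have h3 : HasDerivAt (fun y : ℝ => y ^ 2 / (y ^ 2 - (n : ℝ) ^ 2))
        ((2 * y * (y ^ 2 - (n : ℝ) ^ 2) - y ^ 2 * (2 * y)) / (y ^ 2 - (n : ℝ) ^ 2) ^ 2) y := by
      have h4 : HasDerivAt (fun y : ℝ => y ^ 2) (2 * y) y := by
        simpa using hasDerivAt_pow 2 y
      exact h4.fun_div (h4.sub_const _) hq
    have h5 := h1.fun_add (h3.fun_mul h2)
    refine h5.congr_deriv ?_
    push_cast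
    field_simp
    ring
  apply antitoneOn_of_deriv_nonpos (convex_Ioi _)
  · intro y hy
    exact (hd y hy).continuousAt.continuousWithinAt
  · intro y hy
    rw [interior_Ioi] at hy
    exact (hd y hy).differentiableAt.differentiableWithinAt
  · intro y hy
    rw [interior_Ioi] at hy
    have hy' : (n : ℝ) < y := hy
    rw [(hd y hy).deriv]
    have hn0 : (0 : ℝ) ≤ n := Nat.cast_nonneg n
    have hy0 : 0 < y := lt_of_le_of_lt hn0 hy'
    have hq : 0 < y ^ 2 - (n : ℝ) ^ 2 := by nlinarith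
    have : 0 ≤ (2 * y * (n : ℝ) ^ 2 / (y ^ 2 - (n : ℝ) ^ 2) ^ 2 + 2 * y / (y ^ 2 - (n : ℝ) ^ 2)) * DJ (n : ℤ) y ^ 2 := by
      positivity
    linarith

theorem J_sq_le_St (n : ℕ) (y0 y : ℝ) (h0 : (n : ℝ) < y0) (h : y0 ≤ y) : J (n : ℤ) y ^ 2 ≤ St n y0 := by
  have h1 := sturm n (Set.mem_Ioi.2 h0) (Set.mem_Ioi.2 (lt_of_lt_of_le h0 h)) h
  have hn0 : (0 : ℝ) ≤ n := Nat.cast_nonneg n
  have hy : (n : ℝ) < y := lt_of_lt_of_le h0 h
  have hy0 : 0 < y := lt_of_le_of_lt hn0 hy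
  have hq : 0 < y ^ 2 - (n : ℝ) ^ 2 := by nlinarith
  have h2 : J (n : ℤ) y ^ 2 ≤ St n y := by
    unfold St
    have : 0 ≤ y ^ 2 / (y ^ 2 - (n : ℝ) ^ 2) * DJ (n : ℤ) y ^ 2 := by positivity
    linarith
  exact h2.trans h1

theorem J_succ_zero (n : ℕ) : J ((n + 1 : ℕ) : ℤ) 0 = 0 := by
  have := J1_nat (n + 1) 0
  simp at this
  exact_mod_cast this

/-- if `J_n' ≥ 0` on `[0, Y]` (`n ≥ 1`) then `J_n` is nonnegative and nondecreasing there -/
theorem mono_of (n : ℕ) (Y : ℝ) (hD : ∀ y, 0 ≤ y → y ≤ Y → 0 ≤ DJ ((n + 1 : ℕ) : ℤ) y) (y : ℝ) (hy : 0 ≤ y)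
    (hY : y ≤ Y) : |J ((n + 1 : ℕ) : ℤ) y| ≤ J ((n + 1 : ℕ) : ℤ) Y := by
  have hm : MonotoneOn (fun y : ℝ => J ((n + 1 : ℕ) : ℤ) y) (Set.Icc 0 Y) := by
    apply monotoneOn_of_deriv_nonneg (convex_Icc 0 Y)
    · exact (continuous_J _).continuousOn
    · exact fun x _ => (hasDerivAt_J' _ x).differentiableAt.differentiableWithinAt
    · intro x hx
      rw [interior_Icc] at hx
      rw [(hasDerivAt_J' _ x).deriv]
      exact hD x hx.1.le hx.2.le
  have hYY : 0 ≤ Y := hy.trans hY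
  have h0 := hm (Set.mem_Icc.2 ⟨le_rfl, hYY⟩) (Set.mem_Icc.2 ⟨hy, hY⟩) hy
  have h1 := hm (Set.mem_Icc.2 ⟨hy, hY⟩) (Set.mem_Icc.2 ⟨hYY, le_rfl⟩) hY
  simp only at h0 h1
  rw [J_succ_zero] at h0
  rw [abs_of_nonneg h0]
  exact h1

theorem DJ_succ (n : ℕ) (y : ℝ) :
    DJ ((n + 1 : ℕ) : ℤ) y = (J (n : ℤ) y - J ((n + 2 : ℕ) : ℤ) y) / 2 := by
  unfold DJ
  have e1 : ((n + 1 : ℕ) : ℤ) - 1 = (n : ℤ) := by push_cast; ring
  have e2 : ((n + 1 : ℕ) : ℤ) + 1 = ((n + 2 : ℕ) : ℤ) := by push_cast; ring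
  rw [e1, e2]

/-- `J_{n+1}` is nonnegative and nondecreasing on `[0, Y]` if `(n+3) Y² ≤ 4 (n+1)(n+2)` -/
theorem mono_simple (n : ℕ) (Y : ℝ) (h : ((n : ℝ) + 3) * Y ^ 2 ≤ 4 * ((n : ℝ) + 1) * ((n : ℝ) + 2)) (y : ℝ)
    (hy : 0 ≤ y) (hY : y ≤ Y) : |J ((n + 1 : ℕ) : ℤ) y| ≤ J ((n + 1 : ℕ) : ℤ) Y := by
  refine mono_of n Y ?_ y hy hY
  intro x hx hxY
  rw [DJ_succ]
  have h1 := (J3 n x hx).1
  have h2 := J_le_S (n + 2) 1 (by decide) x hx
  have h3 : S (n + 2) 1 x = (x / 2) ^ (n + 2) / ((n + 2).factorial : ℝ) := by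
    unfold S
    simp
  rw [h3] at h2
  have hf : ((n + 2).factorial : ℝ) = ((n : ℝ) + 2) * (((n : ℝ) + 1) * (n.factorial : ℝ)) := by
    have : n + 2 = (n + 1) + 1 := by ring
    rw [this, Nat.factorial_succ, Nat.factorial_succ]; push_cast; ring
  have hx2 : ((n : ℝ) + 3) * x ^ 2 ≤ 4 * ((n : ℝ) + 1) * ((n : ℝ) + 2) := by
    have : x ^ 2 ≤ Y ^ 2 := by nlinarith
    have h3 : (0 : ℝ) ≤ (n : ℝ) + 3 := by positivity
    nlinarith
  have h4 : (x / 2) ^ (n + 2) / ((n + 2).factorial : ℝ)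
      ≤ (x / 2) ^ n / (n.factorial : ℝ) * (1 - x ^ 2 / (4 * ((n : ℝ) + 1))) := by
    rw [hf]
    have e : (x / 2) ^ (n + 2) / (((n : ℝ) + 2) * (((n : ℝ) + 1) * (n.factorial : ℝ)))
        = (x / 2) ^ n / (n.factorial : ℝ) * (x ^ 2 / (4 * ((n : ℝ) + 1) * ((n : ℝ) + 2))) := by
      have h5 : (n.factorial : ℝ) ≠ 0 := by positivity
      have h6 : (n : ℝ) + 1 ≠ 0 := by positivity
      have h7 : (n : ℝ) + 2 ≠ 0 := by positivity
      rw [pow_add]
      field_simp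
      ring
    rw [e]
    apply mul_le_mul_of_nonneg_left _ (by positivity)
    have h6 : (0 : ℝ) < (n : ℝ) + 1 := by positivity
    have h7 : (0 : ℝ) < (n : ℝ) + 2 := by positivity
    rw [div_le_iff₀ (by positivity)]
    have e2 : (1 - x ^ 2 / (4 * ((n : ℝ) + 1))) * (4 * ((n : ℝ) + 1) * ((n : ℝ) + 2))
        = 4 * ((n : ℝ) + 1) * ((n : ℝ) + 2) - x ^ 2 * ((n : ℝ) + 2) := by field_simp
    rw [e2]
    nlinarith
  linarith

theorem continuous_DJ (n : ℤ) : Continuous (fun y : ℝ => DJ n y) := by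
  unfold DJ
  exact ((continuous_J _).sub (continuous_J _)).div_const 2

/-- if `J_n ≥ 0` on `[0, y0]`, `n ≤ y0` and `J_n'(y0) ≥ 0` then `J_n' ≥ 0` on `[0, y0]` -/
theorem DJ_nonneg_of (n : ℕ) (y0 : ℝ) (hn : (n : ℝ) ≤ y0) (hJ : ∀ y, 0 ≤ y → y ≤ y0 → 0 ≤ J (n : ℤ) y)
    (hD : 0 ≤ DJ (n : ℤ) y0) (h0 : 0 < y0) (y : ℝ) (hy : 0 ≤ y) (hyy : y ≤ y0) (hpos : 0 < y ∨ 2 ≤ n) :
    0 ≤ DJ (n : ℤ) y := by
  have hd : ∀ y : ℝ, 0 < y → HasDerivAt (fun y : ℝ => y * DJ (n : ℤ) y)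
      (((n : ℝ) ^ 2 - y ^ 2) / y * J (n : ℤ) y) y := by
    intro y hy
    have h1 := (hasDerivAt_id y).fun_mul (hasDerivAt_DJ (n : ℤ) y hy.ne')
    refine h1.congr_deriv ?_
    push_cast
    simp only [id]
    field_simp
    ring
  have hc : Continuous (fun y : ℝ => y * DJ (n : ℤ) y) := continuous_id.mul (continuous_DJ _)
  have hn0 : (0 : ℝ) ≤ n := Nat.cast_nonneg n
  rcases eq_or_lt_of_le hy with he | hlt
  · subst he
    rcases hpos with h | h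
    · exact absurd h (lt_irrefl _)
    · obtain ⟨r, hr⟩ : ∃ r, n = (r + 1) + 1 := ⟨n - 2, by omega⟩
      subst hr
      rw [DJ_succ (r + 1) 0]
      have e1 := J_succ_zero r
      have e2 := J_succ_zero (r + 2)
      have e3 : r + 2 + 1 = r + 1 + 2 := by ring
      rw [e3] at e2
      rw [e1, e2]
      simp
  · have key : 0 ≤ y * DJ (n : ℤ) y := by
      rcases le_total y (n : ℝ) with hle | hge
      · have hm : MonotoneOn (fun y : ℝ => y * DJ (n : ℤ) y) (Set.Icc 0 (n : ℝ)) := by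
          apply monotoneOn_of_deriv_nonneg (convex_Icc 0 _)
          · exact hc.continuousOn
          · intro x hx
            rw [interior_Icc] at hx
            exact (hd x hx.1).differentiableAt.differentiableWithinAt
          · intro x hx
            rw [interior_Icc] at hx
            rw [(hd x hx.1).deriv]
            have h1 := hJ x hx.1.le (hx.2.le.trans hn)
            have h2 : 0 ≤ ((n : ℝ) ^ 2 - x ^ 2) / x := by
              apply div_nonneg _ hx.1.le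
              nlinarith [hx.1, hx.2]
            positivity
        have := hm (Set.mem_Icc.2 ⟨le_rfl, hn0⟩) (Set.mem_Icc.2 ⟨hy, hle⟩) hy
        simpa using this
      · have hm : AntitoneOn (fun y : ℝ => y * DJ (n : ℤ) y) (Set.Icc (n : ℝ) y0) := by
          apply antitoneOn_of_deriv_nonpos (convex_Icc _ _)
          · exact hc.continuousOn
          · intro x hx
            rw [interior_Icc] at hx
            exact (hd x (lt_of_le_of_lt hn0 hx.1)).differentiableAt.differentiableWithinAt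
          · intro x hx
            rw [interior_Icc] at hx
            have hx0 : 0 < x := lt_of_le_of_lt hn0 hx.1
            rw [(hd x hx0).deriv]
            have h1 := hJ x hx0.le hx.2.le
            have h2 : ((n : ℝ) ^ 2 - x ^ 2) / x ≤ 0 := by
              apply div_nonpos_of_nonpos_of_nonneg _ hx0.le
              nlinarith [hx.1, hx.2]
            exact mul_nonpos_of_nonpos_of_nonneg h2 h1
        have := hm (Set.mem_Icc.2 ⟨hge, hyy⟩) (Set.mem_Icc.2 ⟨hn, le_rfl⟩) hyy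
        have h3 : 0 ≤ y0 * DJ (n : ℤ) y0 := mul_nonneg h0.le hD
        exact h3.trans this
    exact nonneg_of_mul_nonneg_right key hlt

theorem J_nonneg_two (n : ℕ) (y : ℝ) (hy : 0 ≤ y) (h : y ^ 2 ≤ 4 * ((n : ℝ) + 1)) : 0 ≤ J (n : ℤ) y := by
  refine le_trans ?_ (J3 n y hy).1
  apply mul_nonneg (by positivity)
  have h1 : (0 : ℝ) < 4 * ((n : ℝ) + 1) := by positivity
  have : y ^ 2 / (4 * ((n : ℝ) + 1)) ≤ 1 := by rw [div_le_one h1]; exact h
  linarith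

theorem S_four (j : ℕ) (y : ℝ) :
    S j 4 y = (y / 2) ^ j / (j.factorial : ℝ) *
      (1 - y ^ 2 / (4 * ((j : ℝ) + 1)) + y ^ 4 / (32 * ((j : ℝ) + 1) * ((j : ℝ) + 2))
        - y ^ 6 / (384 * ((j : ℝ) + 1) * ((j : ℝ) + 2) * ((j : ℝ) + 3))) := by
  have h := S_three j y
  have hs : S j 4 y = S j 3 y + (-1 : ℝ) ^ 3 * (y / 2) ^ (2 * 3 + j) /
      (((3 : ℕ).factorial : ℝ) * ((3 + j).factorial : ℝ)) := by
    unfold S
    rw [Finset.sum_range_succ]
  have hf : ((3 + j).factorial : ℝ) = ((j : ℝ) + 3) * (((j : ℝ) + 2) * (((j : ℝ) + 1) * (j.factorial : ℝ))) := by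
    have : 3 + j = ((j + 1) + 1) + 1 := by ring
    rw [this, Nat.factorial_succ, Nat.factorial_succ, Nat.factorial_succ]; push_cast; ring
  have h2 : (j.factorial : ℝ) ≠ 0 := by positivity
  have h3 : (j : ℝ) + 1 ≠ 0 := by positivity
  have h4 : (j : ℝ) + 2 ≠ 0 := by positivity
  have h5 : (j : ℝ) + 3 ≠ 0 := by positivity
  have hp : (y / 2) ^ (2 * 3 + j) = (y / 2) ^ j * (y / 2) ^ 6 := by rw [← pow_add]; congr 1; ring
  rw [hs, h, hf, hp, show ((3 : ℕ).factorial : ℝ) = 6 by norm_num [Nat.factorial]]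
  field_simp
  ring

theorem J_nonneg_four (n : ℕ) (y : ℝ) (hy : 0 ≤ y)
    (h : 0 ≤ 1 - y ^ 2 / (4 * ((n : ℝ) + 1)) + y ^ 4 / (32 * ((n : ℝ) + 1) * ((n : ℝ) + 2))
        - y ^ 6 / (384 * ((n : ℝ) + 1) * ((n : ℝ) + 2) * ((n : ℝ) + 3))) : 0 ≤ J (n : ℤ) y := by
  refine le_trans ?_ (S_le_J n 4 (by decide) (by norm_num) y hy)
  rw [S_four]
  apply mul_nonneg (by positivity) h

/-- the global maximum: `|J_n| ≤ c` everywhere if `c` is a bound at `y0` of the value and of the Sturm function -/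
theorem global_of (n : ℕ) (hn1 : 1 ≤ n) (y0 c : ℝ) (hc : 0 ≤ c) (hn : (n : ℝ) < y0)
    (hJ : ∀ y, 0 ≤ y → y ≤ y0 → 0 ≤ J (n : ℤ) y) (hD : 0 ≤ DJ (n : ℤ) y0) (hS : St n y0 ≤ c ^ 2) (y : ℝ) :
    |J (n : ℤ) y| ≤ c := by
  have hn0 : (0 : ℝ) ≤ n := Nat.cast_nonneg n
  have hy00 : 0 < y0 := lt_of_le_of_lt hn0 hn
  have hval : J (n : ℤ) y0 ^ 2 ≤ c ^ 2 := (J_sq_le_St n y0 y0 hn le_rfl).trans hS
  have hval' : J (n : ℤ) y0 ≤ c := (le_abs_self _).trans (abs_le_of_sq_le_sq hval hc)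
  have main : ∀ y : ℝ, 0 ≤ y → |J (n : ℤ) y| ≤ c := by
    intro y hy
    rcases le_total y y0 with h | h
    · obtain ⟨r, hr⟩ : ∃ r, n = r + 1 := ⟨n - 1, by omega⟩
      subst hr
      have hDz : ∀ x, 0 ≤ x → x ≤ y0 → 0 ≤ DJ ((r + 1 : ℕ) : ℤ) x := by
        intro x hx hx2
        rcases eq_or_lt_of_le hx with he | hlt
        · rcases Nat.eq_zero_or_pos r with hr0 | hr0
          · subst hr0
            rw [← he, DJ_succ]
            have e2 := J_succ_zero 1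
            have : J ((0 : ℕ) : ℤ) 0 = 1 := by simpa using J_zero_zero
            rw [this]
            have e3 : ((0 + 2 : ℕ) : ℤ) = ((1 + 1 : ℕ) : ℤ) := by norm_num
            rw [e3, e2]
            norm_num
          · exact DJ_nonneg_of (r + 1) y0 hn.le hJ hD hy00 x hx hx2 (Or.inr (by omega))
        · exact DJ_nonneg_of (r + 1) y0 hn.le hJ hD hy00 x hx hx2 (Or.inl hlt)
      exact (mono_of r y0 hDz y hy h).trans hval'
    · exact abs_le_of_sq_le_sq ((J_sq_le_St n y0 y hn h).trans hS) hc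
  rcases le_total 0 y with h | h
  · exact main y h
  · rw [← abs_J_neg_arg]; exact main (-y) (by linarith)

end Helper31.Bes
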